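import Mathlib
import Pool.Agent.Q11.DMod
import Pool.Agent.Q11.DModF
import Pool.Agent.Q11.DModG
import Pool.Agent.Q11.DModH

set_option autoImplicit false

namespace Pool.Agent.Results.MP_12ebf5_al.LimitFails

open Q11.DMod Filter Topology

universe u

/-- For every prime `p` and every field `k` of characteristic `p` there is, for `n = 1`, a
holonomic `𝒟`-module `M`, with a finite-dimensional generating space `V`, for which
`dim_k (F_i V) / i` does not converge. -/
theorem result (p : ℕ) [Fact p.Prime] (k : Type u) [Field k] [CharP k p] :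
    ∃ (M : Type u) (_ : AddCommGroup M) (_ : Module k M) (_ : Module (DiffOps k) M)
      (_ : IsScalarTower k (DiffOps k) M) (V : Submodule k M),
      IsHolonomic k M ∧ V.FG ∧ Submodule.span (DiffOps k) (V : Set M) = ⊤ ∧
      ¬ ∃ l : ℝ, Tendsto (fun i : ℕ => (Module.finrank k (genFil V i) : ℝ) / i) atTop (𝓝 l) := by
  refine ⟨M k p bt, inferInstance, inferInstance, inferInstance, inferInstance, VV k p,
    holonomic_M, VV_fg, VV_span, ?_⟩
  have hpr : p.Prime := Fact.out
  rintro ⟨l, hl⟩
  have hl' : Tendsto (fun i : ℕ => ratio k p i) atTop (𝓝 l) := hl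
  have hs1 : Tendsto (fun J : ℕ => p ^ (2 * J + 1)) atTop atTop := by
    apply tendsto_atTop_mono (f := fun J => J) _ tendsto_id
    intro J
    have : 2 * J + 1 < p ^ (2 * J + 1) := Nat.lt_pow_self hpr.one_lt
    show J ≤ p ^ (2 * J + 1)
    omega
  have hs2 : Tendsto (fun J : ℕ => p ^ (2 * J + 2) - 1) atTop atTop := by
    apply tendsto_atTop_mono (f := fun J => J) _ tendsto_id
    intro J
    have : 2 * J + 2 < p ^ (2 * J + 2) := Nat.lt_pow_self hpr.one_lt
    show J ≤ p ^ (2 * J + 2) - 1
    omega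
  have h1 : (5 / 2 : ℝ) ≤ l := ge_of_tendsto' (hl'.comp hs1) (fun J => ratio_lower J)
  have h2 : l ≤ 9 / 4 + 0 := by
    refine le_of_tendsto_of_tendsto' (hl'.comp hs2) ?_ (fun J => ratio_upper2 J)
    apply Tendsto.add tendsto_const_nhds
    exact (tendsto_const_div_atTop_nhds_zero_nat (9 / 4 : ℝ)).comp hs2
  linarith

end Pool.Agent.Results.MP_12ebf5_al.LimitFails
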