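import Mathlib
import Pool.Agent.Q11.DMod
import Pool.Agent.Q11.DModF
import Pool.Agent.Q11.DModG
import Pool.Agent.Q11.DModH

set_option autoImplicit false

namespace Pool.Agent.Results.MP_12ebf5_al.NonIntegralMultiplicity

open Q11.DMod Filter

universe u

/-- For every prime `p` and every field `k` of characteristic `p` there is, for `n = 1`, a
holonomic `𝒟`-module `M`, with a finite-dimensional generating space `V`, for which
`e(M) = limsup dim_k (F_i V) / i` is a real number that is not an integer. -/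
theorem result (p : ℕ) [Fact p.Prime] (k : Type u) [Field k] [CharP k p] :
    ∃ (M : Type u) (_ : AddCommGroup M) (_ : Module k M) (_ : Module (DiffOps k) M)
      (_ : IsScalarTower k (DiffOps k) M) (V : Submodule k M),
      IsHolonomic k M ∧ V.FG ∧ Submodule.span (DiffOps k) (V : Set M) = ⊤ ∧
      ∃ e : ℝ, limsup (fun i : ℕ =>
          (((Module.finrank k (genFil V i) : ℝ) / i : ℝ) : EReal)) atTop = (e : EReal) ∧
        ∀ z : ℤ, e ≠ z := by
  refine ⟨M k p bt, inferInstance, inferInstance, inferInstance, inferInstance, VV k p,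
    holonomic_M, VV_fg, VV_span, ?_⟩
  have hpr : p.Prime := Fact.out
  set L : EReal := limsup (fun i : ℕ => ((ratio k p i : ℝ) : EReal)) atTop with hL
  have hup : L ≤ ((3 - 1 / (2 * (p : ℝ) ^ 2) : ℝ) : EReal) := by
    rw [hL]
    apply limsup_le_of_le
    · isBoundedDefault
    · rw [eventually_atTop]
      exact ⟨6 * p ^ 2, fun i hi => EReal.coe_le_coe_iff.2 (ratio_upper i hi)⟩
  have hlow : ((5 / 2 : ℝ) : EReal) ≤ L := by
    rw [hL]
    apply le_limsup_of_frequently_le
    · rw [frequently_atTop]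
      intro a
      refine ⟨p ^ (2 * a + 1), ?_, EReal.coe_le_coe_iff.2 (ratio_lower a)⟩
      have : 2 * a + 1 < p ^ (2 * a + 1) := Nat.lt_pow_self hpr.one_lt
      omega
    · isBoundedDefault
  have htop : L ≠ ⊤ := ne_of_lt (lt_of_le_of_lt hup (EReal.coe_lt_top _))
  have hbot : L ≠ ⊥ := ne_of_gt (lt_of_lt_of_le (EReal.bot_lt_coe _) hlow)
  have hLe : ((L.toReal : ℝ) : EReal) = L := EReal.coe_toReal htop hbot
  refine ⟨L.toReal, hLe.symm, ?_⟩
  intro z hz
  have h1 : L.toReal ≤ 3 - 1 / (2 * (p : ℝ) ^ 2) := by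
    rw [← EReal.coe_le_coe_iff, hLe]; exact hup
  have h2 : 5 / 2 ≤ L.toReal := by
    rw [← EReal.coe_le_coe_iff, hLe]; exact hlow
  have h3 : (0 : ℝ) < 1 / (2 * (p : ℝ) ^ 2) := by
    have : (0 : ℝ) < p := by exact_mod_cast hpr.pos
    positivity
  rw [hz] at h1 h2
  have h4 : (2 : ℝ) < (z : ℝ) := by linarith
  have h5 : (z : ℝ) < 3 := by linarith
  have h6 : (2 : ℤ) < z := by exact_mod_cast h4
  have h7 : z < 3 := by exact_mod_cast h5
  omega

end Pool.Agent.Results.MP_12ebf5_al.NonIntegralMultiplicity
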